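import Pool.Agent.Q161.WaH

set_option autoImplicit false
open scoped BigOperators

/-!
# The expected waiting time for negative first passage walks
-/

namespace Pool.Agent.Results.MP_40890c_pr.NegativeFirstPassageWaitingTime

open Filter Topology MeasureTheory ProbabilityTheory
open scoped ENNReal
open Pool.Agent.Q161.Wa

/-- the walk `S_m`, the sum of the first `m` steps -/
def walk {Ω : Type*} (X : ℕ → Ω → ℤ) (ω : Ω) (m : ℕ) : ℤ := ∑ i ∈ Finset.range m, X i ω

/-- `w 0, …, w n` is a lattice path from `0` with increments `±1` and `w i > w n = l` for all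
`0 ≤ i < n` -/
def IsFP (l : ℤ) (n : ℕ) (w : ℕ → ℤ) : Prop :=
  w 0 = 0 ∧ (∀ i, i < n → w (i + 1) - w i = 1 ∨ w (i + 1) - w i = -1) ∧
    (∀ i, i < n → w n < w i) ∧ w n = l

/-- the waiting time: the least `m ≥ n` such that the last `n` steps before time `m` form a
first passage walk with end point `l` (infinite if there is none) -/
noncomputable def waitT {Ω : Type*} (X : ℕ → Ω → ℤ) (l : ℤ) (n : ℕ) (ω : Ω) : ℕ∞ :=
  ⨅ (m : ℕ) (_ : n ≤ m ∧ IsFP l n (fun i => walk X ω (m - n + i) - walk X ω (m - n))), (m : ℕ∞)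

/-- the expected waiting time -/
noncomputable def expT {Ω : Type*} [MeasurableSpace Ω] (P : Measure Ω) (X : ℕ → Ω → ℤ) (l : ℤ)
    (n : ℕ) : ℝ≥0∞ := ∫⁻ ω, (waitT X l n ω : ℝ≥0∞) ∂P

/-- the integer `λ_n` -/
noncomputable def lamn (lam : ℝ) (n : ℕ) : ℤ :=
  if (⌊lam * Real.sqrt n⌋ - (n : ℤ)) % 2 = 0 then ⌊lam * Real.sqrt n⌋
  else ⌊lam * Real.sqrt n⌋ + 1

section
variable {Ω : Type*} {X : ℕ → Ω → ℤ}

lemma walk_eq {ω : Ω} (h : ∀ i, X i ω = 1 ∨ X i ω = -1) (m : ℕ) :
    walk X ω m = S (coin X ω) m := by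
  unfold walk S
  apply Finset.sum_congr rfl
  intro i _
  unfold coin
  rcases h i with g | g
  · rw [g]; rfl
  · rw [g]; rfl

lemma hit_iff {ω : Ω} (h : ∀ i, X i ω = 1 ∨ X i ω = -1) (l : ℤ) (n m : ℕ) :
    (n ≤ m ∧ IsFP l n (fun i => walk X ω (m - n + i) - walk X ω (m - n))) ↔
      Hit n (-l) m (coin X ω) := by
  unfold Hit
  apply and_congr_right
  intro _
  have e : (fun i => walk X ω (m - n + i) - walk X ω (m - n)) =
      fun i => S (sh (m - n) (coin X ω)) i := by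
    funext i
    rw [walk_eq h, walk_eq h, S_sh]
  rw [e]
  unfold IsFP FPt
  simp only [S_zero, neg_neg, true_and]
  constructor
  · rintro ⟨_, h2, h3⟩
    refine ⟨fun i hi => ?_, h3⟩
    have := h2 i hi
    omega
  · rintro ⟨h2, h3⟩
    refine ⟨fun i _ => ?_, fun i hi => ?_, h3⟩
    · rw [S_succ]
      cases sh (m - n) (coin X ω) i with
      | true => left; simp
      | false => right; simp
    · have := h2 i hi
      omega

open Classical in
lemma wait_eq {ω : Ω} (h : ∀ i, X i ω = 1 ∨ X i ω = -1) (l : ℤ) (n : ℕ) :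
    (waitT X l n ω : ℝ≥0∞) = ∑' t : ℕ, if NoHit n (-l) t (coin X ω) then 1 else 0 := by
  unfold waitT
  simp only [hit_iff h]
  by_cases hex : ∃ m, Hit n (-l) m (coin X ω)
  · have h1 : (⨅ (m : ℕ) (_ : Hit n (-l) m (coin X ω)), (m : ℕ∞)) = (Nat.find hex : ℕ∞) := by
      apply le_antisymm
      · exact iInf₂_le (f := fun (m : ℕ) (_ : Hit n (-l) m (coin X ω)) => (m : ℕ∞))
          (Nat.find hex) (Nat.find_spec hex)
      · apply le_iInf₂
        intro m hm
        exact_mod_cast Nat.find_min' hex hm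
    rw [h1, tsum_eq_sum (s := Finset.range (Nat.find hex))]
    · rw [Finset.sum_congr rfl (g := fun _ => (1 : ℝ≥0∞))]
      · simp
      · intro t ht
        rw [Finset.mem_range] at ht
        rw [if_pos]
        intro m hm
        exact Nat.find_min hex (by omega)
    · intro t ht
      rw [Finset.mem_range] at ht
      rw [if_neg]
      intro h2
      exact h2 _ (by omega) (Nat.find_spec hex)
  · push Not at hex
    have h1 : (⨅ (m : ℕ) (_ : Hit n (-l) m (coin X ω)), (m : ℕ∞)) = ⊤ := by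
      simp [hex]
    rw [h1]
    have h2 : ∀ t, NoHit n (-l) t (coin X ω) := fun t m _ => hex m
    simp only [h2, if_true]
    rw [ENNReal.tsum_const_eq_top_of_ne_zero one_ne_zero]
    rfl

variable [MeasurableSpace Ω] {P : Measure Ω} [IsProbabilityMeasure P]

lemma ae_good (hX : ∀ i, Measurable (X i)) (h1 : ∀ i, P {ω | X i ω = 1} = 1 / 2)
    (h2 : ∀ i, P {ω | X i ω = -1} = 1 / 2) : ∀ᵐ ω ∂P, ∀ i, X i ω = 1 ∨ X i ω = -1 := by
  rw [ae_all_iff]
  intro i
  have m1 : MeasurableSet {ω | X i ω = 1} := hX i (measurableSet_singleton 1)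
  have m2 : MeasurableSet {ω | X i ω = -1} := hX i (measurableSet_singleton (-1))
  have e : P ({ω | X i ω = 1} ∪ {ω | X i ω = -1}) = 1 := by
    rw [measure_union _ m2, h1, h2, ENNReal.add_halves]
    rw [Set.disjoint_left]
    intro ω g1 g2
    have g1' : X i ω = 1 := g1
    have g2' : X i ω = -1 := g2
    omega
  have h3 := (mem_ae_iff_prob_eq_one (m1.union m2)).2 e
  exact h3

lemma expT_eq (hX : ∀ i, Measurable (X i)) (hind : iIndepFun X P)
    (h1 : ∀ i, P {ω | X i ω = 1} = 1 / 2) (h2 : ∀ i, P {ω | X i ω = -1} = 1 / 2) {n : ℕ}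
    (hn : 2 ≤ n) {l : ℤ} (hq : 0 < qq n (-l)) : expT P X l n = ENNReal.ofReal (tau n (-l)) := by
  classical
  unfold expT
  have e1 : ∫⁻ ω, (waitT X l n ω : ℝ≥0∞) ∂P =
      ∫⁻ ω, ∑' t : ℕ, {ω | NoHit n (-l) t (coin X ω)}.indicator 1 ω ∂P := by
    apply lintegral_congr_ae
    filter_upwards [ae_good hX h1 h2] with ω hω
    rw [wait_eq hω l n]
    rfl
  have hA : ∀ t : ℕ, ∀ x y : ℕ → Bool, (∀ i, i < t → x i = y i) →
      (NoHit n (-l) t x ↔ NoHit n (-l) t y) := fun t x y h => NoHit_congr h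
  have m : ∀ t : ℕ, MeasurableSet {ω | NoHit n (-l) t (coin X ω)} := fun t =>
    meas_event hX (NoHit n (-l) t) t (hA t)
  rw [e1, lintegral_tsum (fun t => (measurable_one.indicator (m t)).aemeasurable)]
  have e2 : ∀ t : ℕ, ∫⁻ ω, {ω | NoHit n (-l) t (coin X ω)}.indicator 1 ω ∂P =
      ENNReal.ofReal (AA n (-l) t) := by
    intro t
    rw [lintegral_indicator_one (m t), prob_eq hX hind h1 (NoHit n (-l) t) t (hA t)]
    rfl
  simp only [e2]
  rw [tau, ENNReal.ofReal_tsum_of_nonneg (AA_nonneg n (-l)) (summable_AA hn hq)]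

lemma general (hX : ∀ i, Measurable (X i)) (hind : iIndepFun X P)
    (h1 : ∀ i, P {ω | X i ω = 1} = 1 / 2) (h2 : ∀ i, P {ω | X i ω = -1} = 1 / 2) {lam : ℝ}
    (hlam : lam < 0) (l : ℕ → ℤ) (hpar : ∀ n : ℕ, (l n - n) % 2 = 0)
    (hl : Tendsto (fun n : ℕ => (l n : ℝ) / Real.sqrt n) atTop (𝓝 lam)) :
    (∀ᶠ n in atTop, expT P X (l n) n < ∞) ∧
      Tendsto (fun n : ℕ => (expT P X (l n) n).toReal / (n * Real.log n)) atTop
        (𝓝 (Real.exp (lam ^ 2 / 2) / (2 * |lam| * Real.sqrt (2 * Real.pi)))) := by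
  have ha : 0 < -lam := by linarith
  have hneg : ∀ᶠ n : ℕ in atTop, l n < 0 := by
    filter_upwards [hl.eventually (gt_mem_nhds hlam), eventually_ge_atTop 1] with n h3 h4
    have h5 : 0 < Real.sqrt n := Real.sqrt_pos.2 (by exact_mod_cast h4)
    rw [div_lt_iff₀ h5, zero_mul] at h3
    exact_mod_cast h3
  have hpar' : ∀ᶠ n in atTop, (-l n).toNat % 2 = n % 2 := by
    filter_upwards [hneg] with n h3
    have := hpar n
    omega
  have hlim' : Tendsto (fun n : ℕ => (((-l n).toNat : ℕ) : ℝ) / Real.sqrt n) atTop (𝓝 (-lam)) := by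
    refine (hl.neg).congr' ?_
    filter_upwards [hneg] with n h3
    have h4 : (((-l n).toNat : ℕ) : ℤ) = -l n := Int.toNat_of_nonneg (by omega)
    have h5 : (((-l n).toNat : ℕ) : ℝ) = -(l n : ℝ) := by exact_mod_cast h4
    rw [h5, neg_div]
  have hκ := local_lim ha _ hpar' hlim'
  have hpi := Real.pi_pos
  have hκ0 : 0 < -lam * (Real.sqrt (2 / Real.pi) * Real.exp (-((-lam) ^ 2 / 2))) := by positivity
  have hev := hκ.eventually (lt_mem_nhds hκ0)
  have hex : ∀ᶠ n : ℕ in atTop, expT P X (l n) n =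
      ENNReal.ofReal (tau n (((-l n).toNat : ℕ) : ℤ)) := by
    filter_upwards [hneg, hev, eventually_ge_atTop 2] with n h3 h4 h5
    have h6 : (((-l n).toNat : ℕ) : ℤ) = -l n := Int.toNat_of_nonneg (by omega)
    rw [h6] at h4 ⊢
    apply expT_eq hX hind h1 h2 h5
    by_contra hcon
    have : (n : ℝ) * qq n (-l n) ≤ 0 :=
      mul_nonpos_of_nonneg_of_nonpos (Nat.cast_nonneg n) (not_lt.1 hcon)
    linarith
  constructor
  · filter_upwards [hex] with n h3
    rw [h3]
    exact ENNReal.ofReal_lt_top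
  · have h3 := lim_tau ha _ hpar' hlim'
    rw [neg_sq, ← abs_of_neg hlam] at h3
    refine h3.congr' ?_
    filter_upwards [hex] with n h4
    rw [h4, ENNReal.toReal_ofReal]
    exact tsum_nonneg fun t => AA_nonneg _ _ t

end

lemma lamn_par (lam : ℝ) (n : ℕ) : (lamn lam n - n) % 2 = 0 := by
  unfold lamn
  split_ifs with h
  · exact h
  · omega

lemma lamn_lim (lam : ℝ) :
    Tendsto (fun n : ℕ => (lamn lam n : ℝ) / Real.sqrt n) atTop (𝓝 lam) := by
  have hsq : Tendsto (fun n : ℕ => Real.sqrt (n : ℝ)) atTop atTop :=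
    Real.tendsto_sqrt_atTop.comp tendsto_natCast_atTop_atTop
  have hinv : Tendsto (fun n : ℕ => (Real.sqrt (n : ℝ))⁻¹) atTop (𝓝 0) := hsq.inv_tendsto_atTop
  have hlo : Tendsto (fun n : ℕ => lam - (Real.sqrt (n : ℝ))⁻¹) atTop (𝓝 lam) := by
    have := hinv.const_sub lam
    rwa [sub_zero] at this
  have hup : Tendsto (fun n : ℕ => lam + (Real.sqrt (n : ℝ))⁻¹) atTop (𝓝 lam) := by
    have := hinv.const_add lam
    rwa [add_zero] at this
  refine tendsto_of_tendsto_of_tendsto_of_le_of_le' hlo hup ?_ ?_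
  · filter_upwards [eventually_ge_atTop 1] with n hn
    have h5 : 0 < Real.sqrt n := Real.sqrt_pos.2 (by exact_mod_cast hn)
    rw [le_div_iff₀ h5, sub_mul, inv_mul_cancel₀ h5.ne']
    have h6 := Int.lt_floor_add_one (lam * Real.sqrt n)
    have h7 : (⌊lam * Real.sqrt n⌋ : ℝ) ≤ (lamn lam n : ℝ) := by
      unfold lamn
      split_ifs
      · exact le_rfl
      · push_cast; linarith
    linarith
  · filter_upwards [eventually_ge_atTop 1] with n hn
    have h5 : 0 < Real.sqrt n := Real.sqrt_pos.2 (by exact_mod_cast hn)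
    rw [div_le_iff₀ h5, add_mul, inv_mul_cancel₀ h5.ne']
    have h6 := Int.floor_le (lam * Real.sqrt n)
    have h7 : (lamn lam n : ℝ) ≤ (⌊lam * Real.sqrt n⌋ : ℝ) + 1 := by
      unfold lamn
      split_ifs
      · linarith
      · push_cast; linarith
    linarith

/-- **Expected waiting time for negative first passage walks.**  For every `lam < 0`,
`E T(FP^{lam,n}) ~ n log n · exp(lam²/2) / (2 |lam| √(2π))`. -/
theorem result {Ω : Type*} [MeasurableSpace Ω] (P : Measure Ω) [IsProbabilityMeasure P]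
    (X : ℕ → Ω → ℤ) (hX : ∀ i, Measurable (X i)) (hind : iIndepFun X P)
    (h1 : ∀ i, P {ω | X i ω = 1} = 1 / 2) (h2 : ∀ i, P {ω | X i ω = -1} = 1 / 2)
    (lam : ℝ) (hlam : lam < 0) :
    ((∀ᶠ n in atTop, expT P X (lamn lam n) n < ∞) ∧
      Tendsto (fun n : ℕ => (expT P X (lamn lam n) n).toReal / (n * Real.log n)) atTop
        (𝓝 (Real.exp (lam ^ 2 / 2) / (2 * |lam| * Real.sqrt (2 * Real.pi))))) ∧
    ∀ l : ℕ → ℤ, (∀ n : ℕ, (l n - n) % 2 = 0) →
      Tendsto (fun n : ℕ => (l n : ℝ) / Real.sqrt n) atTop (𝓝 lam) →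
      (∀ᶠ n in atTop, expT P X (l n) n < ∞) ∧
      Tendsto (fun n : ℕ => (expT P X (l n) n).toReal / (n * Real.log n)) atTop
        (𝓝 (Real.exp (lam ^ 2 / 2) / (2 * |lam| * Real.sqrt (2 * Real.pi)))) :=
  ⟨general hX hind h1 h2 hlam _ (lamn_par lam) (lamn_lim lam),
    fun l hpar hl => general hX hind h1 h2 hlam l hpar hl⟩

end Pool.Agent.Results.MP_40890c_pr.NegativeFirstPassageWaitingTime
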